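import Pool.Agent.W93.AU11
import Pool.Agent.TH872.An3

/-!
# Goldbach pairs in windows, for all the even integers near almost all the elements of an automatic set
-/

set_option autoImplicit false

namespace Pool.Agent.K3h89.AW

open Finset
open Pool.Agent.H807R2.Dav
open Pool.Agent.W93.RD
open Pool.Agent.W93.AU
open Pool.Agent.W93.PG (WinP)
open Pool.Agent.TH872.An (windows_any)

variable {σ : Type}

open Classical in
/-- windows for almost all the accepted integers below `B ^ m` -/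
theorem win_base (B : ℕ) (hB : 2 ≤ B) (δ : σ → ℕ → σ) (F : σ → Prop) (s0 : σ) (Rich : σ → Prop) (κ : ℕ) (C ρ : ℝ) (k : ℕ)
    (hG : Gro B δ F s0 Rich κ C ρ k) (hρ : 1 < ρ) (hR : ∀ s, Rich s → ∃ u v, u < v ∧ v < B ∧ δ s u = s ∧ δ s v = s)
    (κκ : ℤ) (hκκ : κκ ≠ 0) (e U A m₀ : ℕ) (ε : ℝ) (hε : 0 < ε) (P : ℕ → Prop)
    (hP : ∀ m : ℕ, m₀ ≤ m → 2 ∣ m → WinP ε A m → P m) : ∃ m₁ : ℕ, ∀ m, m₁ ≤ m → ∀ cc : ℤ,
    |cc| + |κκ| * (B : ℤ) ^ m ≤ (B : ℤ) ^ (m + e) →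
    ((((range (B ^ m)).filter fun v => F (run B δ m s0 v)).filter (fun v : ℕ => 0 < cc + κκ * v ∧
      Even (cc + κκ * v) ∧ ¬ P (cc + κκ * v).toNat)).card : ℝ) ≤
      1 / (m : ℝ) ^ U * Ac B δ F m s0 := by
  have hC1 := hG.C1
  obtain ⟨W, K1, hanti⟩ := anti B hB δ F s0 Rich κ C ρ k hG hρ κκ hκκ e U
  obtain ⟨V, hV⟩ := windows_any B (B.factorial * κκ.natAbs) U A m₀ (W + 1) hB
    (Nat.mul_pos B.factorial_pos (Int.natAbs_pos.2 hκκ)) ε hε P hP
  obtain ⟨D, K2, hchar⟩ := char_bound B hB δ F s0 Rich κ C ρ k hG hρ hR κκ e V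
  obtain ⟨K3, hfin⟩ := hV D
  refine ⟨K1 + K2 + K3 + κ + 1, fun m hm cc hcc => ?_⟩
  obtain ⟨K, hK⟩ : ∃ K, K = m + e := ⟨_, rfl⟩
  have hpos : 0 < Ac B δ F m s0 := by
    have h1 := hG.low m (by omega)
    have h2 : 0 < ρ ^ m := by positivity
    by_contra hcon
    push Not at hcon
    have h3 : C * Ac B δ F m s0 ≤ 0 := mul_nonpos_of_nonneg_of_nonpos (by linarith) hcon
    linarith
  have hlaw := law_of B hB δ F s0 κκ V D K m hpos (hchar K (by omega) m hK) cc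
  obtain ⟨Ω, hΩ⟩ : ∃ Ω, Ω = (range (B ^ m)).filter (fun v => F (run B δ m s0 v)) := ⟨_, rfl⟩
  rw [← hΩ] at hlaw ⊢
  have hanti' := hanti K (by omega) m hK cc
  rw [← hΩ] at hanti'
  have h := hfin K (by omega) ℕ Ω (fun _ => 1 / Ac B δ F m s0) (fun v => cc + κκ * v) hlaw (by
      intro v hv
      rw [hΩ, mem_filter, mem_range] at hv
      have h1 : |cc + κκ * v| ≤ |cc| + |κκ| * v := by
        refine (abs_add_le _ _).trans ?_
        rw [abs_mul, abs_of_nonneg (by positivity : (0 : ℤ) ≤ (v : ℤ))]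
      have h2 : |κκ| * (v : ℤ) < |κκ| * (B : ℤ) ^ m :=
        mul_lt_mul_of_pos_left (by exact_mod_cast hv.1) (abs_pos.2 hκκ)
      rw [hK]
      push_cast
      linarith)
    (by
      intro Sm _ hSm
      have h3 : ∑ ω ∈ Ω, (if Sm ω then (fun _ : ℕ => 1 / Ac B δ F m s0) ω else 0) ≤
          ∑ ω ∈ Ω, (if (1 ≤ cc + κκ * (ω : ℕ) ∧ ((cc + κκ * (ω : ℕ) : ℤ) : ℝ) <
            ((B ^ K : ℕ) : ℝ) / Real.log ((B ^ K : ℕ) : ℝ) ^ (W + 1)) then 1 / Ac B δ F m s0 else 0) := by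
        refine sum_le_sum fun v hv => ?_
        by_cases h4 : Sm v
        · rw [if_pos h4, if_pos (hSm v hv h4)]
        · rw [if_neg h4]
          split_ifs
          · positivity
          · exact le_rfl
      refine h3.trans ?_
      rw [← sum_filter, sum_const, nsmul_eq_mul, mul_one_div, div_le_iff₀ hpos]
      exact hanti')
    (fun v : ℕ => 0 < cc + κκ * v ∧ Even (cc + κκ * v) ∧ ¬ P (cc + κκ * v).toNat)
    (fun v _ h => h)
  rw [← sum_filter, sum_const, nsmul_eq_mul, mul_one_div, div_le_iff₀ hpos] at h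
  refine h.trans (mul_le_mul_of_nonneg_right ?_ hpos.le)
  have hm1 : (0 : ℝ) < m := by exact_mod_cast (by omega : 0 < m)
  apply one_div_le_one_div_of_le (by positivity)
  apply pow_le_pow_left₀ hm1.le
  rw [hK]
  push_cast
  linarith [(Nat.cast_nonneg e : (0 : ℝ) ≤ e)]

open Classical in
/-- windows for almost all the elements of an automatic set -/
theorem win_point [Fintype σ] (b : ℕ) (hb : 2 ≤ b) (M : DFA ℕ σ)
    (hS : ∀ k : ℕ, ∃ᶠ N : ℕ in Filter.atTop, Real.log N ^ k < (((range N).filter fun v => Nat.digits b v ∈ M.accepts).card : ℝ))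
    (κκ : ℤ) (hκκ : κκ ≠ 0) (Bc U A m₀ : ℕ) (ε : ℝ) (hε : 0 < ε) (P : ℕ → Prop)
    (hP : ∀ m : ℕ, m₀ ≤ m → 2 ∣ m → WinP ε A m → P m) : ∃ N₀ : ℕ, ∀ N, N₀ ≤ N → ∀ cc : ℤ, |cc| ≤ Bc * N →
    (((range N).filter (fun v : ℕ => Nat.digits b v ∈ M.accepts ∧ 0 < cc + κκ * v ∧ Even (cc + κκ * v) ∧ ¬ P (cc + κκ * v).toNat)).card : ℝ) ≤
      (((range N).filter fun v => Nat.digits b v ∈ M.accepts).card : ℝ) / Real.log N ^ U := by
  obtain ⟨B, δ, F, s0, κ, C, ρ, k, hB2, hρ, hG, hrun⟩ := setup b hb M hS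
  have hC1 := hG.C1
  have hC0 : 0 < C := by linarith
  have hB1 : (1 : ℝ) < B := by exact_mod_cast (by omega : 1 < B)
  have hlogB : 0 < Real.log B := Real.log_pos hB1
  obtain ⟨e, he⟩ : ∃ e : ℕ, (Bc : ℤ) + |κκ| ≤ (B : ℤ) ^ e := by
    refine ⟨Bc + κκ.natAbs, ?_⟩
    have h1 : Bc + κκ.natAbs < B ^ (Bc + κκ.natAbs) := Nat.lt_pow_self (by omega)
    rw [Int.abs_eq_natAbs]
    exact_mod_cast h1.le
  obtain ⟨m₁, hbase⟩ := win_base B hB2 δ F s0 (R1 B δ) κ C ρ k hG hρ (fun s hs => hs) κκ hκκ e (U + 1) A m₀ ε hε P hP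
  obtain ⟨R, hR⟩ := exists_nat_ge (C * Real.log B ^ U)
  refine ⟨B ^ (m₁ + κ + R + 1), fun N hN cc hcc => ?_⟩
  have hpB : 0 < B ^ (m₁ + κ + R + 1) := by positivity
  obtain ⟨n, hn⟩ : ∃ n, n = Nat.log B N := ⟨_, rfl⟩
  have hn1 : m₁ + κ + R + 1 ≤ n := by
    rw [hn]
    exact (Nat.le_log_iff_pow_le (by omega) (by omega)).2 hN
  have hN1 : B ^ n ≤ N := by rw [hn]; exact Nat.pow_log_le_self B (by omega)
  have hN2 : N < B ^ (n + 1) := by rw [hn]; exact Nat.lt_pow_succ_log_self (by omega) N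
  have hNpos : 1 < N := by
    have : B ≤ B ^ n := Nat.le_self_pow (by omega) B
    omega
  have h1 := hbase (n + 1) (by omega) cc (by
    have e1 : (N : ℤ) ≤ (B : ℤ) ^ (n + 1) := by exact_mod_cast hN2.le
    rw [pow_add (B : ℤ) (n + 1) e]
    calc |cc| + |κκ| * (B : ℤ) ^ (n + 1) ≤ Bc * (B : ℤ) ^ (n + 1) + |κκ| * (B : ℤ) ^ (n + 1) := by
          have : (Bc : ℤ) * N ≤ Bc * (B : ℤ) ^ (n + 1) := mul_le_mul_of_nonneg_left e1 (by positivity)
          linarith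
      _ = (B : ℤ) ^ (n + 1) * (Bc + |κκ|) := by ring
      _ ≤ _ := mul_le_mul_of_nonneg_left he (by positivity))
  have hsub : (range N).filter (fun v : ℕ => Nat.digits b v ∈ M.accepts ∧ 0 < cc + κκ * v ∧ Even (cc + κκ * v) ∧ ¬ P (cc + κκ * v).toNat) ⊆
      ((range (B ^ (n + 1))).filter fun v => F (run B δ (n + 1) s0 v)).filter (fun v : ℕ => 0 < cc + κκ * v ∧ Even (cc + κκ * v) ∧ ¬ P (cc + κκ * v).toNat) := by
    intro v hv
    rw [mem_filter, mem_range] at hv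
    rw [mem_filter, mem_filter, mem_range]
    have hv2 : v < B ^ (n + 1) := hv.1.trans hN2
    exact ⟨⟨hv2, (hrun (n + 1) v hv2).2 hv.2.1⟩, hv.2.2⟩
  have h2 : (((range N).filter (fun v : ℕ => Nat.digits b v ∈ M.accepts ∧ 0 < cc + κκ * v ∧ Even (cc + κκ * v) ∧ ¬ P (cc + κκ * v).toNat)).card : ℝ) ≤
      1 / ((n + 1 : ℕ) : ℝ) ^ (U + 1) * Ac B δ F (n + 1) s0 := le_trans (by exact_mod_cast card_le_card hsub) h1
  refine h2.trans ?_
  have h3 := hG.step n (by omega) s0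
  have h4 : Ac B δ F n s0 ≤ (((range N).filter fun v => Nat.digits b v ∈ M.accepts).card : ℝ) := by
    have e1 : Ac B δ F n s0 = (((range (B ^ n)).filter fun v => Nat.digits b v ∈ M.accepts).card : ℝ) := by
      rw [Ac_eq B (by omega), ← sum_filter, sum_const, nsmul_eq_mul, mul_one]
      congr 2
      apply filter_congr
      intro v hv
      exact hrun n v (mem_range.1 hv)
    rw [e1]
    exact_mod_cast card_le_card (filter_subset_filter _ (range_mono hN1))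
  obtain ⟨X, hX⟩ : ∃ X : ℝ, X = (((range N).filter fun v => Nat.digits b v ∈ M.accepts).card : ℝ) := ⟨_, rfl⟩
  rw [← hX] at h4 ⊢
  have hX0 : 0 ≤ X := by rw [hX]; positivity
  obtain ⟨m, hm⟩ : ∃ m : ℝ, m = ((n + 1 : ℕ) : ℝ) := ⟨_, rfl⟩
  rw [← hm]
  have hm0 : 0 < m := by rw [hm]; positivity
  have hNr : (0 : ℝ) < N := by exact_mod_cast (by omega : 0 < N)
  have hlog0 : 0 < Real.log N := Real.log_pos (by exact_mod_cast hNpos)
  have hlog : Real.log N ≤ m * Real.log B := by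
    rw [hm, ← Real.log_pow]
    apply Real.log_le_log hNr
    exact_mod_cast hN2.le
  have hRm : C * Real.log B ^ U ≤ m := by
    refine hR.trans ?_
    rw [hm]
    exact_mod_cast (by omega : R ≤ n + 1)
  have h5 : Ac B δ F (n + 1) s0 ≤ C * X := h3.trans (mul_le_mul_of_nonneg_left h4 (by linarith))
  rw [le_div_iff₀ (by positivity), one_div]
  calc (m ^ (U + 1))⁻¹ * Ac B δ F (n + 1) s0 * Real.log N ^ U ≤ (m ^ (U + 1))⁻¹ * (C * X) * (m * Real.log B) ^ U := by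
        gcongr
    _ = (m ^ (U + 1))⁻¹ * (C * Real.log B ^ U) * m ^ U * X := by rw [mul_pow]; ring
    _ ≤ (m ^ (U + 1))⁻¹ * m * m ^ U * X := by gcongr
    _ = X := by
        rw [pow_succ]
        field_simp



open Classical in
/-- windows for all the even integers near almost all the elements of an automatic set -/
theorem win_near [Fintype σ] (b : ℕ) (hb : 2 ≤ b) (M : DFA ℕ σ)
    (hS : ∀ k : ℕ, ∃ᶠ N : ℕ in Filter.atTop, Real.log N ^ k < (((range N).filter fun v => Nat.digits b v ∈ M.accepts).card : ℝ))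
    (κκ : ℤ) (hκκ : κκ ≠ 0) (Bc U A m₀ W : ℕ) (ε : ℝ) (hε : 0 < ε) (P : ℕ → Prop)
    (hP : ∀ m : ℕ, m₀ ≤ m → 2 ∣ m → WinP ε A m → P m) : ∃ N₀ : ℕ, ∀ N, N₀ ≤ N → ∀ cc : ℤ, |cc| ≤ Bc * N →
    (((range N).filter (fun v : ℕ => Nat.digits b v ∈ M.accepts ∧
      ¬ ∀ m : ℕ, 0 < m → Even m → (|(m : ℤ) - (cc + κκ * v)| : ℝ) ≤ Real.log N ^ W → P m)).card : ℝ) ≤
      (((range N).filter fun v => Nat.digits b v ∈ M.accepts).card : ℝ) / Real.log N ^ U := by
  obtain ⟨N1, h1⟩ := win_point b hb M hS κκ hκκ (Bc + 1) (U + W + 1) A m₀ ε hε P hP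
  obtain ⟨N2, h2⟩ : ∃ N2 : ℕ, ∀ N : ℕ, N2 ≤ N → Real.log N ^ W ≤ N := by
    have h3 := ((Real.isLittleO_pow_log_id_atTop (n := W)).bound one_pos).and (Filter.eventually_ge_atTop (1 : ℝ))
    have h4 := tendsto_natCast_atTop_atTop (R := ℝ) |>.eventually h3
    rw [Filter.eventually_atTop] at h4
    obtain ⟨N2, h5⟩ := h4
    refine ⟨N2, fun N hN => ?_⟩
    have h6 := h5 N hN
    have h7 : |(N : ℝ)| = N := abs_of_nonneg (Nat.cast_nonneg N)
    have h8 := h6.1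
    rw [one_mul, id, Real.norm_eq_abs, Real.norm_eq_abs, h7] at h8
    exact (le_abs_self _).trans h8
  refine ⟨N1 + N2 + 27, fun N hN cc hcc => ?_⟩
  have hlogW := h2 N (by omega)
  have hN0 : (0 : ℝ) < N := by exact_mod_cast (by omega : 0 < N)
  have hlog3 : 3 ≤ Real.log N := by
    rw [Real.le_log_iff_exp_le hN0]
    have h3 : Real.exp 3 ≤ 27 := by
      have h4 : Real.exp 3 = Real.exp 1 ^ 3 := by rw [← Real.exp_nat_mul]; norm_num
      rw [h4]
      have h5 : Real.exp 1 ≤ 3 := by linarith [Real.exp_one_lt_d9]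
      calc Real.exp 1 ^ 3 ≤ 3 ^ 3 := pow_le_pow_left₀ (Real.exp_pos _).le h5 3
        _ = 27 := by norm_num
    refine h3.trans ?_
    exact_mod_cast (by omega : 27 ≤ N)
  obtain ⟨Q, hQ⟩ : ∃ Q : ℕ, Q = ⌊Real.log N ^ W⌋₊ := ⟨_, rfl⟩
  have hlW : 0 ≤ Real.log N ^ W := by positivity
  have hQ1 : (Q : ℝ) ≤ Real.log N ^ W := by rw [hQ]; exact Nat.floor_le hlW
  have hQN : Q ≤ N := by exact_mod_cast hQ1.trans hlogW
  obtain ⟨S, hS'⟩ : ∃ S : ℝ, S = (((range N).filter fun v => Nat.digits b v ∈ M.accepts).card : ℝ) := ⟨_, rfl⟩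
  have hS0 : 0 ≤ S := by rw [hS']; positivity
  have hpt : ∀ t ∈ Finset.Icc (-(Q : ℤ)) Q,
      (((range N).filter (fun v : ℕ => Nat.digits b v ∈ M.accepts ∧ 0 < (cc + t) + κκ * v ∧ Even ((cc + t) + κκ * v) ∧
        ¬ P ((cc + t) + κκ * v).toNat)).card : ℝ) ≤ S / Real.log N ^ (U + W + 1) := by
    intro t ht
    rw [Finset.mem_Icc] at ht
    rw [hS']
    apply h1 N (by omega) (cc + t)
    have h3 : |t| ≤ (N : ℤ) := by
      rw [abs_le]
      have : (Q : ℤ) ≤ N := by exact_mod_cast hQN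
      omega
    have h4 := abs_add_le cc t
    push_cast
    linarith
  have hsub : ((range N).filter (fun v : ℕ => Nat.digits b v ∈ M.accepts ∧
      ¬ ∀ m : ℕ, 0 < m → Even m → (|(m : ℤ) - (cc + κκ * v)| : ℝ) ≤ Real.log N ^ W → P m)) ⊆
      (Finset.Icc (-(Q : ℤ)) Q).biUnion fun t => (range N).filter (fun v : ℕ => Nat.digits b v ∈ M.accepts ∧
        0 < (cc + t) + κκ * v ∧ Even ((cc + t) + κκ * v) ∧ ¬ P ((cc + t) + κκ * v).toNat) := by
    intro v hv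
    rw [mem_filter] at hv
    obtain ⟨hv1, hv2, hv3⟩ := hv
    push Not at hv3
    obtain ⟨m, hm0, hme, hmv, hmP⟩ := hv3
    rw [mem_biUnion]
    have h5 : |(m : ℤ) - (cc + κκ * v)| ≤ (Q : ℤ) := by
      have h6 : ((|(m : ℤ) - (cc + κκ * v)|).toNat : ℝ) ≤ Real.log N ^ W := by
        have h7 : (((|(m : ℤ) - (cc + κκ * v)|).toNat : ℤ) : ℝ) = (|(m : ℤ) - (cc + κκ * v)| : ℝ) := by
          rw [Int.toNat_of_nonneg (abs_nonneg _)]
          push_cast
          rfl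
        have h8 : ((|(m : ℤ) - (cc + κκ * v)|).toNat : ℝ) = (((|(m : ℤ) - (cc + κκ * v)|).toNat : ℤ) : ℝ) := by
          push_cast
          rfl
        rw [h8, h7]
        exact hmv
      have h9 := Nat.le_floor h6
      rw [← hQ] at h9
      have h10 : (((|(m : ℤ) - (cc + κκ * v)|).toNat : ℕ) : ℤ) ≤ (Q : ℤ) := by exact_mod_cast h9
      rwa [Int.toNat_of_nonneg (abs_nonneg _)] at h10
    rw [abs_le] at h5
    refine ⟨(m : ℤ) - (cc + κκ * v), Finset.mem_Icc.2 h5, ?_⟩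
    have h6 : cc + ((m : ℤ) - (cc + κκ * v)) + κκ * v = m := by ring
    rw [mem_filter, h6, Int.toNat_natCast]
    exact ⟨hv1, hv2, by exact_mod_cast hm0, by exact_mod_cast hme, hmP⟩
  have hcard : (((range N).filter (fun v : ℕ => Nat.digits b v ∈ M.accepts ∧
      ¬ ∀ m : ℕ, 0 < m → Even m → (|(m : ℤ) - (cc + κκ * v)| : ℝ) ≤ Real.log N ^ W → P m)).card : ℝ) ≤
      ∑ t ∈ Finset.Icc (-(Q : ℤ)) Q, S / Real.log N ^ (U + W + 1) := by
    refine le_trans ?_ (Finset.sum_le_sum hpt)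
    exact_mod_cast (card_le_card hsub).trans card_biUnion_le
  refine hcard.trans ?_
  rw [sum_const, Int.card_Icc, nsmul_eq_mul, ← hS']
  have h3 : (((Q : ℤ) + 1 - -(Q : ℤ)).toNat : ℝ) = 2 * Q + 1 := by
    have : ((Q : ℤ) + 1 - -(Q : ℤ)).toNat = 2 * Q + 1 := by omega
    rw [this]
    push_cast
    ring
  rw [h3]
  have h4 : (2 * (Q : ℝ) + 1) ≤ 3 * Real.log N ^ W := by
    have : 1 ≤ Real.log N ^ W := one_le_pow₀ (by linarith)
    linarith
  have hl0 : 0 < Real.log N := by linarith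
  calc (2 * (Q : ℝ) + 1) * (S / Real.log N ^ (U + W + 1)) ≤ (Real.log N * Real.log N ^ W) * (S / Real.log N ^ (U + W + 1)) := by
        apply mul_le_mul_of_nonneg_right _ (by positivity)
        refine h4.trans ?_
        apply mul_le_mul_of_nonneg_right hlog3 hlW
    _ = S / Real.log N ^ U := by
        rw [pow_succ, pow_add]
        field_simp

end Pool.Agent.K3h89.AW
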